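import Mathlib

/-!
# STF/Defs : compact Lie groups with the metrics of the problem, Laplace operator, Schrödinger group

`CptGrp`: a closed connected subgroup `K` of `U(N)` with a basis of its Lie algebra which is
orthonormal for minus the Killing form. `MetGrp`: a quotient `Q` of `T^n x K_1 x ... x K_m` by a finite
normal subgroup, with the metric `(⊗ α_i dt_i²) ⊗ (⊗ β_j g_j)`, `g_j` = minus the Killing form of `K_j`,
each circle of length `2π` for `dt_i²`.
-/

open MeasureTheory
open scoped ENNReal ComplexConjugate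

namespace STF

/-- The unitary group `U(N)`. -/
def UN (N : ℕ) : Type := Matrix.unitaryGroup (Fin N) ℂ

instance (N : ℕ) : Group (UN N) := (inferInstance : Group (Matrix.unitaryGroup (Fin N) ℂ))

noncomputable instance (N : ℕ) : TopologicalSpace (UN N) := instTopologicalSpaceSubtype

/-- The matrix of an element of `U(N)`. -/
def UN.mat {N : ℕ} (u : UN N) : Matrix (Fin N) (Fin N) ℂ := u.1

/-- The Lie algebra of a subgroup of `U(N)`: all matrices `X` with `exp (s X) ∈ K` for all real `s`. -/
def lieOf {N : ℕ} (K : Subgroup (UN N)) : Set (Matrix (Fin N) (Fin N) ℂ) :=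
  {X | ∀ s : ℝ, ∃ u ∈ K, u.mat = NormedSpace.exp (s • X)}

/-- A closed connected subgroup `K` of `U(N)`, together with a basis `X` of its Lie algebra which is
orthonormal for minus the Killing form (with the structure constants `[X_i, X_j] = Σ_k c_ijk X_k` the
Killing form is `tr (ad X_i ad X_j) = Σ_{k,l} c_ikl c_jlk`) and the one-parameter groups
`exp (s X_k)`. -/
structure CptGrp where
  N : ℕ
  K : Subgroup (UN N)
  closed : IsClosed (K : Set (UN N))
  conn : IsConnected (K : Set (UN N))
  d : ℕ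
  X : Fin d → Matrix (Fin N) (Fin N) ℂ
  ex : Fin d → ℝ → K
  ex_eq : ∀ k s, (ex k s).1.mat = NormedSpace.exp (s • X k)
  indep : LinearIndependent ℝ X
  span : ∀ Y ∈ lieOf K, ∃ y : Fin d → ℝ, Y = ∑ i, y i • X i
  c : Fin d → Fin d → Fin d → ℝ
  bracket : ∀ i j, X i * X j - X j * X i = ∑ k, c i j k • X k
  killing : ∀ i j, ∑ k, ∑ l, c i k l * c j l k = if i = j then -1 else 0

/-- The rank: the largest number of linearly independent pairwise commuting elements of the Lie
algebra. -/
noncomputable def CptGrp.rk (F : CptGrp) : ℕ :=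
  sSup {k | ∃ v : Fin k → Matrix (Fin F.N) (Fin F.N) ℂ, LinearIndependent ℝ v ∧
    (∀ i, v i ∈ lieOf F.K) ∧ ∀ i j, v i * v j = v j * v i}

/-- The group `T^n x K_1 x ... x K_m`. -/
def Cov (n : ℕ) {m : ℕ} (F : Fin m → CptGrp) : Type :=
  (Fin n → Multiplicative UnitAddCircle) × (∀ j, (F j).K)

instance (n : ℕ) {m : ℕ} (F : Fin m → CptGrp) : Group (Cov n F) := Prod.instGroup

noncomputable instance (n : ℕ) {m : ℕ} (F : Fin m → CptGrp) : TopologicalSpace (Cov n F) :=
  instTopologicalSpaceProd

/-- `L²(Q)`. -/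
def Lsq (Q : Type) [MeasureSpace Q] : Type := Lp ℂ 2 (volume : Measure Q)

noncomputable instance (Q : Type) [MeasureSpace Q] : NormedAddCommGroup (Lsq Q) :=
  Lp.instNormedAddCommGroup

noncomputable instance (Q : Type) [MeasureSpace Q] : InnerProductSpace ℂ (Lsq Q) :=
  MeasureTheory.L2.innerProductSpace

instance (Q : Type) [MeasureSpace Q] : CompleteSpace (Lsq Q) :=
  inferInstanceAs (CompleteSpace (Lp ℂ 2 (volume : Measure Q)))

/-- The function of an element of `L²(Q)`. -/
noncomputable def Lsq.fn {Q : Type} [MeasureSpace Q] (f : Lsq Q) : Q → ℂ := f.1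

/-- A connected compact Lie group `Q`, the quotient of `T^n x K_1 x ... x K_m` by a finite normal
subgroup, with Haar probability measure, and the constants `α_i, β_j > 0` of the metric. -/
structure MetGrp where
  n : ℕ
  m : ℕ
  F : Fin m → CptGrp
  Q : Type
  grp : Group Q
  top : TopologicalSpace Q
  tgrp : IsTopologicalGroup Q
  cpt : CompactSpace Q
  t2 : T2Space Q
  ms : MeasureSpace Q
  bor : BorelSpace Q
  haar : Measure.IsHaarMeasure (volume : Measure Q)
  prob : IsProbabilityMeasure (volume : Measure Q)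
  π : Cov n F →* Q
  cont : Continuous π
  surj : Function.Surjective π
  fin_ker : Finite π.ker
  α : Fin n → ℝ
  β : Fin m → ℝ
  α_pos : ∀ i, 0 < α i
  β_pos : ∀ j, 0 < β j

namespace MetGrp

attribute [instance] grp top tgrp cpt t2 ms bor haar prob

variable (S : MetGrp)

/-- dimension of `Q` -/
def dim : ℕ := S.n + ∑ j, (S.F j).d

/-- rank of `Q` -/
noncomputable def rank : ℕ := S.n + ∑ j, (S.F j).rk

/-- The `i`-th circle in `Q`, with the parameter `s ∈ ℝ/2πℤ`. -/
noncomputable def circ (i : Fin S.n) (s : ℝ) : S.Q :=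
  S.π (Pi.mulSingle i (Multiplicative.ofAdd ((s / (2 * Real.pi) : ℝ) : UnitAddCircle)), 1)

/-- The one-parameter group of the `k`-th basis vector of the Lie algebra of `K_j` in `Q`. -/
noncomputable def onePar (j : Fin S.m) (k : Fin (S.F j).d) (s : ℝ) : S.Q :=
  S.π (1, Pi.mulSingle j ((S.F j).ex k s))

/-- The Laplace operator of `Q`: the sum of the second derivatives along the one-parameter groups of
an orthonormal basis of the Lie algebra. -/
noncomputable def lap (f : S.Q → ℂ) (x : S.Q) : ℂ :=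
  ∑ i, ((1 / S.α i : ℝ) : ℂ) * iteratedDeriv 2 (fun s : ℝ => f (x * S.circ i s)) 0 +
    ∑ j, ((1 / S.β j : ℝ) : ℂ) * ∑ k, iteratedDeriv 2 (fun s : ℝ => f (x * S.onePar j k s)) 0

/-- The trigonometric polynomials on `T^n x K_1 x ... x K_m`: the algebra generated by the coordinates
of the circles, the matrix entries of the elements of the groups `K_j`, and their conjugates. -/
def trig : Subalgebra ℂ (Cov S.n S.F → ℂ) :=
  Algebra.adjoin ℂ
    ({f | ∃ i, f = fun x => fourier 1 (Multiplicative.toAdd (x.1 i))} ∪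
      {f | ∃ i, f = fun x => conj (fourier 1 (Multiplicative.toAdd (x.1 i)))} ∪
      {f | ∃ j a b, f = fun x => (x.2 j).1.mat a b} ∪
      {f | ∃ j a b, f = fun x => conj ((x.2 j).1.mat a b)})

/-- The eigenfunctions of the Laplace operator with eigenvalue `-lam` (trigonometric polynomials `f`
on `Q` with `Δ f = - lam f`). -/
def eigFun (lam : ℝ) : Set (S.Q → ℂ) :=
  {f | (fun y => f (S.π y)) ∈ S.trig ∧ ∀ x, S.lap f x = -(lam : ℂ) * f x}

/-- The closed subspace of `L²(Q)` spanned by the eigenfunctions with eigenvalue `-lam`. -/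
noncomputable def eigL2 (lam : ℝ) : Submodule ℂ (Lsq S.Q) :=
  (Submodule.span ℂ {u : Lsq S.Q | ∃ f ∈ S.eigFun lam, u.fn =ᵐ[volume] f}).topologicalClosure

/-- The orthogonal projection on `eigL2 lam`. -/
noncomputable def proj (lam : ℝ) : Lsq S.Q →L[ℂ] Lsq S.Q :=
  haveI : (S.eigL2 lam).HasOrthogonalProjection := by unfold eigL2; infer_instance
  (S.eigL2 lam).starProjection

/-- The Schrödinger group `e^{itΔ} f = Σ_lam e^{- i t lam} P_lam f` (sum in `L²(Q)` over the
eigenvalues; all other terms vanish). -/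
noncomputable def eitD (t : ℝ) (f : Lsq S.Q) : Lsq S.Q :=
  ∑' lam : ℝ, Complex.exp (-((t * lam : ℝ) : ℂ) * Complex.I) • S.proj lam f

/-- The square of the Sobolev norm `‖(I - Δ)^{s/2} f‖²_{L²} = Σ_lam (1 + lam)^s ‖P_lam f‖²`, possibly
infinite. -/
noncomputable def sobSq (s : ℝ) (f : Lsq S.Q) : ℝ≥0∞ :=
  ∑' lam : ℝ, ENNReal.ofReal ((1 + lam) ^ s * ‖S.proj lam f‖ ^ 2)

/-- The norm of `e^{itΔ} f` in `L^p([a,b] x Q)`. -/
noncomputable def normST (p a b : ℝ) (f : Lsq S.Q) : ℝ≥0∞ :=
  (∫⁻ t in Set.Icc a b, (eLpNorm (S.eitD t f).fn (ENNReal.ofReal p) volume) ^ p) ^ (1 / p)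

/-- The Sobolev norm of order `s`. -/
noncomputable def sob (s : ℝ) (f : Lsq S.Q) : ℝ≥0∞ := (S.sobSq s f) ^ (1 / 2 : ℝ)

end MetGrp

end STF
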