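import Pool.Agent.STF.Defs
import Pool.Agent.STC.StResult

/-!
# STF/Link : the bundled definitions of `STF/Defs` and the ones of `STC/StDefs`
-/

open MeasureTheory
open scoped ENNReal NNReal ComplexConjugate

namespace STF

attribute [local instance 100] LieRing.ofAssociativeRing

namespace CptGrp

variable (F : CptGrp)

/-- the closed subgroup -/
def cs : ClosedSubgroup (STC.UG F.N) where
  toSubgroup := F.K
  isClosed' := F.closed

theorem lieSet_cs : STC.lieSet F.cs.toSubgroup = lieOf F.K := rfl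

theorem mem (k : Fin F.d) : F.X k ∈ STC.lieSet F.cs.toSubgroup :=
  fun s => ⟨(F.ex k s).1, (F.ex k s).2, F.ex_eq k s⟩

/-- the basis vectors in the Lie algebra -/
def vec (k : Fin F.d) : STC.lieAlg F.cs.toSubgroup F.cs.isClosed' := ⟨F.X k, F.mem k⟩

theorem vec_indep : LinearIndependent ℝ F.vec := by
  have h := F.indep
  refine LinearIndependent.of_comp
    ((STC.lieAlg F.cs.toSubgroup F.cs.isClosed').toSubmodule.subtype) ?_
  exact h

theorem vec_span : ⊤ ≤ Submodule.span ℝ (Set.range F.vec) := by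
  intro Y _
  obtain ⟨y, hy⟩ := F.span Y.1 Y.2
  have h : Y = ∑ i, y i • F.vec i := by
    apply Subtype.ext
    rw [hy]
    have h2 : ((∑ i, y i • F.vec i : STC.lieAlg F.cs.toSubgroup F.cs.isClosed') : STC.Mat F.N) =
        (STC.lieAlg F.cs.toSubgroup F.cs.isClosed').toSubmodule.subtype (∑ i, y i • F.vec i) := rfl
    rw [h2, map_sum]
    refine Finset.sum_congr rfl fun i _ => ?_
    rw [map_smul]
    rfl
  rw [h]
  exact Submodule.sum_mem _ fun i _ => Submodule.smul_mem _ _ (Submodule.subset_span ⟨i, rfl⟩)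

/-- the basis -/
noncomputable def bas : Module.Basis (Fin F.d) ℝ (STC.lieAlg F.cs.toSubgroup F.cs.isClosed') :=
  Module.Basis.mk F.vec_indep F.vec_span

theorem bas_apply (k : Fin F.d) : F.bas k = F.vec k := by
  unfold bas
  rw [Module.Basis.mk_apply]

theorem bracket_vec (i j : Fin F.d) : ⁅F.vec i, F.vec j⁆ = ∑ k, F.c i j k • F.vec k := by
  apply Subtype.ext
  have h2 : ((∑ k, F.c i j k • F.vec k : STC.lieAlg F.cs.toSubgroup F.cs.isClosed') :
      STC.Mat F.N) = ∑ k, F.c i j k • F.X k := by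
    have h3 : ((∑ k, F.c i j k • F.vec k : STC.lieAlg F.cs.toSubgroup F.cs.isClosed') :
        STC.Mat F.N) = (STC.lieAlg F.cs.toSubgroup F.cs.isClosed').toSubmodule.subtype
        (∑ k, F.c i j k • F.vec k) := rfl
    rw [h3, map_sum]
    refine Finset.sum_congr rfl fun i _ => ?_
    rw [map_smul]
    rfl
  rw [h2, ← F.bracket i j]
  rfl

theorem orth (i j : Fin F.d) :
    killingForm ℝ (STC.lieAlg F.cs.toSubgroup F.cs.isClosed') (F.bas i) (F.bas j) =
      if i = j then -1 else 0 := by
  classical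
  rw [killingForm_apply_apply, LinearMap.trace_eq_matrix_trace ℝ F.bas, ← F.killing i j,
    Finset.sum_comm, Matrix.trace]
  refine Finset.sum_congr rfl fun k _ => ?_
  rw [Matrix.diag_apply, LinearMap.toMatrix_apply]
  have h1 : (LieAlgebra.ad ℝ (STC.lieAlg F.cs.toSubgroup F.cs.isClosed') (F.bas i) ∘ₗ
      LieAlgebra.ad ℝ (STC.lieAlg F.cs.toSubgroup F.cs.isClosed') (F.bas j)) (F.bas k) =
      ∑ l, F.c j k l • ∑ m, F.c i l m • F.bas m := by
    rw [LinearMap.comp_apply, LieAlgebra.ad_apply, LieAlgebra.ad_apply]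
    simp only [bas_apply]
    rw [F.bracket_vec j k, lie_sum]
    refine Finset.sum_congr rfl fun l _ => ?_
    rw [lie_smul, F.bracket_vec i l]
  rw [h1]
  simp only [map_sum, map_smul, Finsupp.coe_finsetSum, Finsupp.coe_smul, Finset.sum_apply,
    Pi.smul_apply, Module.Basis.repr_self, smul_eq_mul, Finsupp.single_apply]
  refine Finset.sum_congr rfl fun l _ => ?_
  have h2 : ∑ m, F.c i l m * (if m = k then (1 : ℝ) else 0) = F.c i l k := by
    simp
  rw [h2, mul_comm]

/-- the Killing-orthonormal basis -/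
noncomputable def lb : STC.LieBasis F.cs.toSubgroup F.cs.isClosed' F.d where
  X := F.bas
  orth := F.orth

/-- every closed connected subgroup with centreless Lie algebra -/
theorem exists_cptGrp (N : ℕ) (K : Subgroup (UN N)) (hK : IsClosed (K : Set (UN N)))
    (hc : IsConnected (K : Set (UN N)))
    (h0 : ∀ X ∈ lieOf K, (∀ Y ∈ lieOf K, X * Y = Y * X) → X = 0) :
    ∃ F : CptGrp, (⟨F.N, F.K⟩ : Σ N : ℕ, Subgroup (UN N)) = ⟨N, K⟩ := by
  have hcl : STC.Centreless (K : Subgroup (STC.UG N)) := by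
    intro X hX hXY
    exact h0 X hX fun Y hY => sub_eq_zero.1 (hXY Y hY)
  obtain ⟨d, ⟨B⟩⟩ := STC.LieBasis.exists (K := (K : Subgroup (STC.UG N))) hK hcl
  have hmem : ∀ k : Fin d, ((B.X k : STC.lieAlg (K : Subgroup (STC.UG N)) hK) : STC.Mat N) ∈
      STC.lieSet (K : Subgroup (STC.UG N)) := fun k => (B.X k).2
  refine ⟨{ N := N, K := K, closed := hK, conn := hc, d := d
            X := fun k => ((B.X k : STC.lieAlg (K : Subgroup (STC.UG N)) hK) : STC.Mat N)
            ex := fun k s => ⟨(hmem k s).choose, (hmem k s).choose_spec.1⟩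
            ex_eq := fun k s => (hmem k s).choose_spec.2
            indep := ?_
            span := ?_
            c := fun i j k => B.X.repr ⁅B.X i, B.X j⁆ k
            bracket := ?_
            killing := ?_ }, rfl⟩
  · exact B.X.linearIndependent.map'
      ((STC.lieAlg (K : Subgroup (STC.UG N)) hK).toSubmodule.subtype)
      (Submodule.ker_subtype _)
  · intro Y hY
    refine ⟨fun i => B.X.repr ⟨Y, hY⟩ i, ?_⟩
    have h := B.X.sum_repr ⟨Y, hY⟩
    have h2 := congrArg ((STC.lieAlg (K : Subgroup (STC.UG N)) hK).toSubmodule.subtype) h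
    rw [map_sum] at h2
    exact h2.symm
  · intro i j
    have h := B.X.sum_repr ⁅B.X i, B.X j⁆
    have h2 := congrArg ((STC.lieAlg (K : Subgroup (STC.UG N)) hK).toSubmodule.subtype) h
    rw [map_sum] at h2
    exact h2.symm
  · intro i j
    classical
    rw [← B.orth i j, killingForm_apply_apply, LinearMap.trace_eq_matrix_trace ℝ B.X,
      Finset.sum_comm, Matrix.trace]
    refine Finset.sum_congr rfl fun k _ => ?_
    rw [Matrix.diag_apply, LinearMap.toMatrix_apply, LinearMap.comp_apply, LieAlgebra.ad_apply,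
      LieAlgebra.ad_apply]
    have h1 : ⁅B.X i, ⁅B.X j, B.X k⁆⁆ =
        ∑ l, (B.X.repr ⁅B.X j, B.X k⁆ l) • ⁅B.X i, B.X l⁆ := by
      conv_lhs => rw [← B.X.sum_repr ⁅B.X j, B.X k⁆]
      rw [lie_sum]
      exact Finset.sum_congr rfl fun l _ => lie_smul _ _ _
    rw [h1]
    simp only [map_sum, map_smul, Finsupp.coe_finsetSum, Finsupp.coe_smul, Finset.sum_apply,
      Pi.smul_apply, smul_eq_mul]
    exact Finset.sum_congr rfl fun l _ => mul_comm _ _

end CptGrp

end STF
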