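import Pool.Agent.STF.Link

/-!
# STF/Link2 : the Laplace operator, its eigenspaces and the Schrödinger group of a `MetGrp`
-/

open MeasureTheory
open scoped ENNReal NNReal ComplexConjugate

namespace STF

namespace MetGrp

variable (S : MetGrp)

/-- the closed subgroups -/
abbrev csK : ∀ j, ClosedSubgroup (STC.UG (S.F j).N) := fun j => (S.F j).cs

/-- the Killing-orthonormal bases -/
noncomputable abbrev lbK : ∀ j, STC.LieBasis (S.csK j).toSubgroup (S.csK j).isClosed' (S.F j).d :=
  fun j => (S.F j).lb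

/-- the projection -/
def piG : STC.GT S.n S.csK →* S.Q := S.π

theorem circ_eq (i : Fin S.n) (s : ℝ) : S.circ i s = S.piG (STC.circ S.csK i s) := rfl

theorem onePar_eq (j : Fin S.m) (k : Fin (S.F j).d) (s : ℝ) :
    S.onePar j k s = S.piG (STC.onePar S.n j ((S.lbK j).X k) s) := by
  have h : ((S.F j).ex k s : (S.F j).K) =
      (STC.CG.ex (K := S.csK j) ((S.lbK j).X k).2 s : STC.CG (S.csK j)) := by
    apply STC.CG.mat_injective (K := S.csK j)
    rw [STC.CG.mat_ex]
    have h2 := (S.F j).ex_eq k s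
    have h3 : (((S.lbK j).X k : STC.lieAlg (S.csK j).toSubgroup (S.csK j).isClosed') :
        STC.Mat (S.F j).N) = (S.F j).X k := by
      have := (S.F j).bas_apply k
      exact congrArg Subtype.val this
    rw [h3]
    exact h2
  unfold onePar STC.onePar
  rw [h]
  rfl

theorem lap_eq (f : S.Q → ℂ) (x : S.Q) : S.lap f x = STC.lap S.piG S.α S.β S.lbK f x := by
  unfold lap STC.lap
  simp only [S.circ_eq, S.onePar_eq]

theorem eigFun_eq (lam : ℝ) : S.eigFun lam = STC.eigFun S.piG S.α S.β S.lbK lam := by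
  unfold eigFun STC.eigFun
  simp only [S.lap_eq]
  rfl

theorem eigL2_eq (lam : ℝ) :
    S.eigL2 lam = (STC.eigL2 S.piG S.α S.β S.lbK lam : Submodule ℂ (Lp ℂ 2 (volume : Measure S.Q))) := by
  unfold eigL2 STC.eigL2
  rw [S.eigFun_eq]
  rfl

theorem proj_eq (lam : ℝ) (f : Lsq S.Q) :
    S.proj lam f = (STC.eigL2 S.piG S.α S.β S.lbK lam).starProjection
      (f : Lp ℂ 2 (volume : Measure S.Q)) := by
  have key : ∀ (A B : Submodule ℂ (Lp ℂ 2 (volume : Measure S.Q)))
      (hA : A.HasOrthogonalProjection) (hB : B.HasOrthogonalProjection), A = B →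
      @Submodule.starProjection ℂ (Lp ℂ 2 (volume : Measure S.Q)) _ _ _ A hA f =
        @Submodule.starProjection ℂ (Lp ℂ 2 (volume : Measure S.Q)) _ _ _ B hB f := by
    intro A B _ _ hAB
    subst hAB
    rfl
  exact key _ _ _ _ (S.eigL2_eq lam)

theorem eitD_eq (t : ℝ) (f : Lsq S.Q) :
    S.eitD t f = STC.eitD S.piG S.α S.β S.lbK t (f : Lp ℂ 2 (volume : Measure S.Q)) := by
  unfold eitD STC.eitD
  simp only [S.proj_eq]
  rfl

theorem sobSq_eq (s : ℝ) (f : Lsq S.Q) :
    S.sobSq s f = STC.sobSq S.piG S.α S.β S.lbK s (f : Lp ℂ 2 (volume : Measure S.Q)) := by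
  unfold sobSq STC.sobSq
  simp only [S.proj_eq]
  rfl

end MetGrp

end STF
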