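import Pool.Agent.STF.Link2
import Pool.Agent.BDD.RectAll

/-!
# STF/Main : the final theorem in bundled form
-/

open MeasureTheory
open scoped ENNReal NNReal ComplexConjugate

namespace STF

/-- a total orthogonal family of closed subspaces: every vector is the sum of its projections -/
theorem hasSum_of_total {H : Type} [NormedAddCommGroup H] [InnerProductSpace ℂ H] [CompleteSpace H]
    (E : ℝ → Submodule ℂ H) [∀ l, (E l).HasOrthogonalProjection]
    (horth : ∀ l m, l ≠ m → E l ⟂ E m) (hcl : ∀ l, IsClosed (E l : Set H))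
    (htot : (⨆ l, E l).topologicalClosure = ⊤) (f : H) :
    HasSum (fun l => (E l).starProjection f) f := by
  have : ∀ l, CompleteSpace (E l) := fun l => (hcl l).completeSpace_coe
  have hfam : OrthogonalFamily ℂ (fun l => E l) fun l => (E l).subtypeₗᵢ := by
    intro l m hlm v w
    exact Submodule.isOrtho_iff_inner_eq.1 (horth l m hlm) v v.2 w w.2
  have hV := IsHilbertSum.mkInternal E hfam htot.ge
  obtain ⟨w, hw⟩ : ∃ w, w = hV.linearIsometryEquiv f := ⟨_, rfl⟩
  have h1 : HasSum (fun l => ((w l : E l) : H)) f := by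
    have h := hV.hasSum_linearIsometryEquiv_symm w
    rw [hw, LinearIsometryEquiv.symm_apply_apply, ← hw] at h
    exact h
  have h2 : ∀ l, (E l).starProjection f = (w l : H) := by
    intro l
    refine Submodule.eq_starProjection_of_mem_of_inner_eq_zero (w l).2 ?_
    intro v hv
    have h3 : HasSum (fun m => inner ℂ ((w m : E m) : H) v) (inner ℂ f v) := by
      have h4 := (innerSL ℂ v).hasSum h1
      have h5 := h4.star
      simpa using h5
    have h6 : HasSum (fun m => inner ℂ ((w m : E m) : H) v) (inner ℂ ((w l : E l) : H) v) := by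
      refine hasSum_single l fun m hm => ?_
      exact Submodule.isOrtho_iff_inner_eq.1 (horth m l hm) _ (w m).2 _ hv
    rw [inner_sub_left, h3.unique h6, sub_self]
  simp only [h2]
  exact h1

namespace MetGrp

variable (S : MetGrp)

theorem conn_csK : ∀ j, IsConnected ((S.csK j).toSubgroup : Set (STC.UG (S.F j).N)) :=
  fun j => (S.F j).conn

theorem cont_piG : Continuous S.piG := S.cont

theorem secondCountable : SecondCountableTopology S.Q := by
  have hs : Function.Surjective S.piG := S.surj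
  have hopen : IsOpenMap S.piG := MonoidHom.isOpenMap_of_sigmaCompact S.piG hs S.cont_piG
  exact (S.cont_piG.isClosedMap.isQuotientMap S.cont_piG hs).secondCountableTopology hopen

theorem eigL2_orth (lam mu : ℝ) (h : lam ≠ mu) : S.eigL2 lam ⟂ S.eigL2 mu := by
  have := S.secondCountable
  rw [S.eigL2_eq, S.eigL2_eq]
  exact STC.eigL2_orth S.conn_csK S.lbK S.piG S.cont_piG S.surj S.α S.β S.α_pos S.β_pos lam mu h

theorem eigL2_nonneg (lam : ℝ) (h : S.eigL2 lam ≠ ⊥) : 0 ≤ lam := by
  have := S.secondCountable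
  rw [S.eigL2_eq] at h
  exact STC.eigL2_nonneg S.conn_csK S.lbK S.piG S.cont_piG S.surj S.α S.β S.α_pos S.β_pos lam h

theorem hasSum_proj (f : Lsq S.Q) : HasSum (fun lam : ℝ => S.proj lam f) f := by
  have := S.secondCountable
  have h := hasSum_of_total (fun lam => STC.eigL2 S.piG S.α S.β S.lbK lam)
    (fun lam mu h => STC.eigL2_orth S.conn_csK S.lbK S.piG S.cont_piG S.surj S.α S.β S.α_pos S.β_pos
      lam mu h)
    (fun lam => by unfold STC.eigL2; exact Submodule.isClosed_topologicalClosure _)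
    (STC.eigL2_dense S.conn_csK S.lbK S.piG S.cont_piG S.surj S.fin_ker S.α S.β S.α_pos S.β_pos)
    (f : Lp ℂ 2 (volume : Measure S.Q))
  simp only [S.proj_eq]
  exact h

theorem rank_eq : S.rank = S.n + ∑ j, STC.rank (S.csK j) := rfl

theorem estimate (hr : 0 < S.rank) (p : ℝ) (hp : 2 + 4 / (S.rank : ℝ) < p) (a b : ℝ)
    (hab : a < b) : ∃ C : ℝ≥0, ∀ f : Lsq S.Q,
      S.normST p a b f ≤ C * S.sob ((S.dim : ℝ) / 2 - ((S.dim : ℝ) + 2) / p) f := by
  have := S.secondCountable
  obtain ⟨C, hC⟩ := STC.strichartz_main (fun _ _ hr hq => STE.rectStr_all hr hq) S.conn_csK S.lbK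
    S.piG S.cont_piG S.surj S.α S.β S.α_pos S.β_pos a b hab S.rank S.dim S.rank_eq hr rfl p hp
  have hp0 : 0 < p := by
    have : 0 ≤ 4 / (S.rank : ℝ) := by positivity
    linarith
  have e : (p / 2) * (1 / p) = (1 / 2 : ℝ) := by field_simp
  refine ⟨C ^ (1 / p), fun f => ?_⟩
  have h1 := hC (f : Lp ℂ 2 (volume : Measure S.Q))
  rw [← S.sobSq_eq] at h1
  have h2 : ∀ t, (eLpNorm (S.eitD t f).fn (ENNReal.ofReal p) volume) =
      eLpNorm (STC.eitD S.piG S.α S.β S.lbK t (f : Lp ℂ 2 (volume : Measure S.Q)))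
        (ENNReal.ofReal p) volume := by
    intro t
    rw [S.eitD_eq]
    rfl
  unfold normST sob
  simp only [h2]
  refine (ENNReal.rpow_le_rpow h1 (by positivity : (0 : ℝ) ≤ 1 / p)).trans (le_of_eq ?_)
  rw [ENNReal.mul_rpow_of_nonneg _ _ (by positivity : (0 : ℝ) ≤ 1 / p), ← ENNReal.rpow_mul, e,
    ENNReal.coe_rpow_of_nonneg _ (by positivity : (0 : ℝ) ≤ 1 / p)]

end MetGrp

end STF
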